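import Pool.Agent.Lib.MP_1dedaf_gt.Mg.G002

/-!
# TASK TN V0: a continuous inverse function and the change of variables

`f` has the continuous positive derivative `r`, so it is strictly increasing and maps `[a, b]` onto `[f a, f b]`. Proof of `inv_fun`: on `[a, b]` `f` is a strictly increasing continuous
bijection onto `[f a, f b]`; let `g0` be the inverse of this bijection (for instance `Function.invFunOn f (Icc a b)`, or `StrictMonoOn.orderIso`); it is strictly monotone on `[f a, f b]` with image `[a, b]`,
so it is continuous there (`StrictMonoOn.continuousWithinAt..`, `MonotoneOn` + surjectivity onto an interval, or: an order isomorphism of intervals is a homeomorphism, `OrderIso.continuous`), and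
`g := IccExtend _ g0`, that is `g X = g0 (max (f a) (min (f b) X))`, is continuous on the line. `int_subst`: `intervalIntegral.integral_comp_mul_deriv'''` or
`intervalIntegral.integral_comp_mul_deriv'` with `φ` continuous on the image `[f a, f b]`: `∫_a^b φ (f x) r x dx = ∫_{f a}^{f b} φ`.
-/

set_option autoImplicit false

open MeasureTheory Set Filter Topology

namespace Pool.Agent.Lib.MP_1dedaf_gt.DK

theorem V0_strict (f r : ℝ → ℝ) (hf : ∀ x, HasDerivAt f (r x) x) (hp : ∀ x, 0 < r x) : StrictMono f :=
  strictMono_of_deriv_pos fun x => by rw [(hf x).deriv]; exact hp x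

theorem inv_fun (f r : ℝ → ℝ) (hf : ∀ x, HasDerivAt f (r x) x) (hp : ∀ x, 0 < r x) (a b : ℝ) (hab : a ≤ b) :
    ∃ g : ℝ → ℝ, Continuous g ∧ (∀ x ∈ Icc a b, g (f x) = x) ∧ (∀ X ∈ Icc (f a) (f b), g X ∈ Icc a b ∧ f (g X) = X) := by
  have hs := V0_strict f r hf hp
  have hcf : Continuous f := continuous_iff_continuousAt.2 fun x => (hf x).continuousAt
  let c : ℝ → ℝ := fun x => max a (min b x)
  have hc : ∀ x, c x = max a (min b x) := fun x => rfl
  have hcc : Continuous c := continuous_const.max (continuous_const.min continuous_id)
  have hca : ∀ x, a ≤ c x := fun x => le_max_left _ _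
  have hcb : ∀ x, c x ≤ b := fun x => max_le hab (min_le_left _ _)
  have hcI : ∀ x ∈ Icc a b, c x = x := by
    intro x hx
    rw [hc, min_eq_right hx.2, max_eq_right hx.1]
  let F : ℝ → ℝ := fun x => f (c x) + (x - c x)
  have hF : ∀ x, F x = f (c x) + (x - c x) := fun x => rfl
  have hFI : ∀ x ∈ Icc a b, F x = f x := by
    intro x hx
    rw [hF, hcI x hx]
    ring
  have hFc : Continuous F := (hcf.comp hcc).add (continuous_id.sub hcc)
  have hFs : StrictMono F := by
    intro x y hxy
    have h1 : c x ≤ c y := max_le_max le_rfl (min_le_min le_rfl hxy.le)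
    have h2 : x - c x ≤ y - c y := by
      rw [hc, hc]
      rcases le_total b x with h | h
      · rw [min_eq_left h, min_eq_left (h.trans hxy.le)]
        linarith
      · rw [min_eq_right h]
        rcases le_total b y with h' | h'
        · rw [min_eq_left h', max_eq_right hab]
          have := le_max_right a x
          linarith
        · rw [min_eq_right h']
          rcases le_total a x with h3 | h3
          · rw [max_eq_right h3, max_eq_right (h3.trans hxy.le)]
            linarith
          · rw [max_eq_left h3]
            rcases le_total a y with h4 | h4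
            · rw [max_eq_right h4]
              linarith
            · rw [max_eq_left h4]
              linarith
    rcases h1.lt_or_eq with h3 | h3
    · have h4 := hs h3
      rw [hF, hF]
      linarith
    · rw [hF, hF, h3]
      linarith
  have hsurj : Function.Surjective F := by
    refine hFc.surjective ?_ ?_
    · refine tendsto_atTop_mono (fun x => ?_) (tendsto_atTop_add_const_right atTop (f a - b) tendsto_id)
      have h1 := hs.monotone (hca x)
      have h2 := hcb x
      rw [hF]
      show x + (f a - b) ≤ _
      linarith
    · refine tendsto_atBot_mono (fun x => ?_) (tendsto_atBot_add_const_right atBot (f b - a) tendsto_id)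
      have h1 := hs.monotone (hcb x)
      have h2 := hca x
      rw [hF]
      show _ ≤ x + (f b - a)
      linarith
  let e : ℝ ≃o ℝ := StrictMono.orderIsoOfSurjective F hFs hsurj
  have he : ∀ x, e x = F x := fun x => rfl
  refine ⟨e.symm, e.symm.continuous, ?_, ?_⟩
  · intro x hx
    rw [← hFI x hx, ← he, e.symm_apply_apply]
  · intro X hX
    have h1 : e.symm (f a) = a := by
      rw [← hFI a ⟨le_rfl, hab⟩, ← he, e.symm_apply_apply]
    have h2 : e.symm (f b) = b := by
      rw [← hFI b ⟨hab, le_rfl⟩, ← he, e.symm_apply_apply]
    have h3 : e.symm X ∈ Icc a b := by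
      refine ⟨?_, ?_⟩
      · have h4 := e.symm.monotone hX.1
        rwa [h1] at h4
      · have h4 := e.symm.monotone hX.2
        rwa [h2] at h4
    refine ⟨h3, ?_⟩
    rw [← hFI _ h3, ← he, e.apply_symm_apply]

theorem int_subst (f r : ℝ → ℝ) (hf : ∀ x, HasDerivAt f (r x) x) (hr : Continuous r) (hp : ∀ x, 0 < r x) (a b : ℝ) (hab : a ≤ b)
    (φ : ℝ → ℝ) (hφ : ContinuousOn φ (Icc (f a) (f b))) :
    ∫ x in a..b, φ (f x) * r x = ∫ X in (f a)..(f b), φ X := by
  have hs := V0_strict f r hf hp
  have hcf : Continuous f := continuous_iff_continuousAt.2 fun x => (hf x).continuousAt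
  refine intervalIntegral.integral_comp_mul_deriv'' (g := φ) hcf.continuousOn
    (fun x _ => (hf x).hasDerivWithinAt) hr.continuousOn (hφ.mono ?_)
  rintro _ ⟨x, hx, rfl⟩
  rw [uIcc_of_le hab] at hx
  exact ⟨hs.monotone hx.1, hs.monotone hx.2⟩

end Pool.Agent.Lib.MP_1dedaf_gt.DK
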