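import Pool.Agent.Lib.MP_1dedaf_gt.DK.Goals
import Pool.Agent.Lib.MP_1dedaf_gt.DK.A3
import Pool.Agent.Lib.MP_1dedaf_gt.Mg.G004

/-!
# TASK TN A5: the area of a corner-filled body which contains `(x1, y1)`

`x1 = r 0`, `y1 = u 0`, `W = w`, `H = h`, `A = ∫_0^w (u - l) = ∫_0^h (r - g)` (`slice_col`, `slice_row` with `F = 1`). `N = (xN, H)` with `xN := g h`, `E = (W, yE)` with `yE := l w` are points of the body (`K.iff`; `gr`, `lu`), `0 ≤ xN ≤ W`, `0 ≤ yE ≤ H`. Proof of `area0`.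
(i) Pentagon: `2 A ≥ x1 yE + W H - xN yE + xN y1`: on `[0, xN]` `u` is above the chord from `(0, y1)` to `(xN, H)`, so `∫_0^{xN} u ≥ xN (y1 + H)/2`; on `[xN, W]` above the chord from `(xN, H)` to `(W, yE)` (`u W ≥ yE`): `∫ ≥ (W - xN)(H + yE)/2`; `l = 0` on `[0, x1]` and on `[x1, W]` `l` is below the chord from
`(x1, 0)` to `(W, yE)`: `∫_0^W l ≤ (W - x1) yE/2`. (ii) Suppose `A < x1 H` and `A < y1 W`. Then `x1 yE + W H - xN yE + xN y1 < x1 H + y1 W`, that is `(W - x1)(H - y1) < (x1 - xN)(y1 - yE)`. As the left side is `≥ 0` (`x1 ≤ W`, `y1 ≤ H`), `x1 - xN` and `y1 - yE` have the same strict sign; if both are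
negative then `(xN - x1)(yE - y1) ≤ (W - x1)(H - y1)`, contradiction. So `xN < x1`, `yE < y1`. (iii) Then `2 A ≥ x1 H + y1 W`: on `[0, x1]` `l = 0` and `u` is above the chords `(0, y1)`, `(xN, H)`, `(x1, y1)`: `∫_0^{x1} (u - l) ≥ x1 y1 + x1 (H - y1)/2`; on `[x1, W]` the columns contain the triangle
`(x1, 0), (x1, y1), (W, yE)`: `u - l ≥ y1 (W - x)/(W - x1)` (`u` above the chord from `(x1, y1)` to `(W, yE)`, `l` below the chord from `(x1, 0)` to `(W, yE)`), `∫ ≥ y1 (W - x1)/2` (trivial if `x1 = W`). Contradiction with `A < x1 H`, `A < y1 W`.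
-/

set_option autoImplicit false

open MeasureTheory Set Filter Topology

namespace Pool.Agent.Lib.MP_1dedaf_gt.DK

theorem area_eq (K : Bd) (h : K.Ok) : ∫ x in (0:ℝ)..K.w, (K.u x - K.l x) = ∫ y in (0:ℝ)..K.h, (K.r y - K.g y) := by
  have h1 := Bd.slice_col K h (fun _ => 1) continuous_const
  have h2 := Bd.slice_row K h (fun _ => 1) continuous_const
  simp only [intervalIntegral.integral_const, smul_eq_mul, mul_one] at h1 h2
  rw [← h1, h2]

/-- A concave function is above the chord: integral version. -/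
theorem A5_chord (f : ℝ → ℝ) (W a b ya yb : ℝ) (cf : Continuous f) (hf : ConcaveOn ℝ (Icc 0 W) f) (ha : 0 ≤ a) (hab : a ≤ b) (hb : b ≤ W)
    (h1 : ya ≤ f a) (h2 : yb ≤ f b) : (b - a) * (ya + yb) / 2 ≤ ∫ x in a..b, f x := by
  rcases eq_or_lt_of_le hab with h | h
  · rw [h, intervalIntegral.integral_same, sub_self, zero_mul, zero_div]
  · have hd : 0 < b - a := by linarith
    have hc : ∀ x ∈ Icc a b, ya + (yb - ya) / (b - a) * (x - a) ≤ f x := by
      intro x hx
      have hs : (b - x) / (b - a) + (x - a) / (b - a) = 1 := by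
        rw [← add_div, show b - x + (x - a) = b - a by ring]
        exact div_self hd.ne'
      have h3 : 0 ≤ (b - x) / (b - a) := div_nonneg (by linarith [hx.2]) hd.le
      have h4 : 0 ≤ (x - a) / (b - a) := div_nonneg (by linarith [hx.1]) hd.le
      have h5 := hf.2 (show a ∈ Icc 0 W from ⟨ha, hab.trans hb⟩) (show b ∈ Icc 0 W from ⟨ha.trans hab, hb⟩) h3 h4 hs
      simp only [smul_eq_mul] at h5
      have h6 : (b - x) / (b - a) * a + (x - a) / (b - a) * b = x := by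
        rw [div_mul_eq_mul_div, div_mul_eq_mul_div, ← add_div, div_eq_iff hd.ne']
        ring
      rw [h6] at h5
      have h7 := mul_le_mul_of_nonneg_left h1 h3
      have h8 := mul_le_mul_of_nonneg_left h2 h4
      have h9 : (b - x) / (b - a) = 1 - (x - a) / (b - a) := by linarith
      have h10 : (yb - ya) / (b - a) * (x - a) = (x - a) / (b - a) * yb - (x - a) / (b - a) * ya := by
        ring
      rw [h10]
      rw [h9] at h5 h7
      linarith
    have hi : (∫ x in a..b, (ya + (yb - ya) / (b - a) * (x - a))) = (b - a) * (ya + yb) / 2 := by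
      have hder : ∀ x ∈ uIcc a b, HasDerivAt
          (fun x => ya * (x - a) + (yb - ya) / (b - a) * ((x - a) ^ 2 / 2))
          (ya + (yb - ya) / (b - a) * (x - a)) x := by
        intro x _
        have e1 : HasDerivAt (fun x : ℝ => x - a) 1 x := (hasDerivAt_id x).sub_const a
        have e2 := (e1.pow 2).div_const 2
        have e3 := (e1.const_mul ya).add (e2.const_mul ((yb - ya) / (b - a)))
        refine e3.congr_deriv ?_
        simp
      rw [intervalIntegral.integral_eq_sub_of_hasDerivAt hder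
        ((continuous_const.add (continuous_const.mul (continuous_id.sub continuous_const))).intervalIntegrable _ _)]
      field_simp
      ring
    rw [← hi]
    exact intervalIntegral.integral_mono_on hab
      ((continuous_const.add (continuous_const.mul (continuous_id.sub continuous_const))).intervalIntegrable _ _)
      (cf.intervalIntegrable _ _) hc

theorem area0 (K : Bd) (h : K.CF) (hm : K.mem (K.r 0) (K.u 0)) :
    K.r 0 * K.h ≤ (∫ y in (0:ℝ)..K.h, (K.r y - K.g y)) ∨ K.u 0 * K.w ≤ ∫ x in (0:ℝ)..K.w, (K.u x - K.l x) := by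
  obtain ⟨hl0, hg0, hy1, hx1, hlx, hgy, hbt, -, hxW, hyH, -, -, -⟩ := cf_facts K h
  have hN : K.mem (K.g K.h) K.h :=
    (h.iff (K.g K.h) K.h).2 ⟨h.hh.le, le_rfl, le_rfl, h.gr K.h ⟨h.hh.le, le_rfl⟩⟩
  have hE := (h.iff K.w (K.l K.w)).1 ⟨h.hw.le, le_rfl, le_rfl, h.lu K.w ⟨h.hw.le, le_rfl⟩⟩
  obtain ⟨hN1, hN2, hN3, hN4⟩ := hN
  obtain ⟨hE1, hE2, hE3, hE4⟩ := hE
  have hEu : K.l K.w ≤ K.u K.w := h.lu K.w ⟨h.hw.le, le_rfl⟩
  have hm4 : K.u 0 ≤ K.u (K.r 0) := hm.2.2.2
  obtain ⟨xN, hxN⟩ : ∃ xN, xN = K.g K.h := ⟨_, rfl⟩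
  obtain ⟨yE, hyE⟩ : ∃ yE, yE = K.l K.w := ⟨_, rfl⟩
  rw [← hxN] at hN1 hN2 hN3 hN4
  rw [← hyE] at hE1 hE2 hE3 hE4 hEu
  have hlr : K.l (K.r 0) = 0 := (hbt (K.r 0) hx1 le_rfl).2.1
  have iu : ∀ a b : ℝ, IntervalIntegrable K.u volume a b := fun a b => h.cu.intervalIntegrable a b
  have il : ∀ a b : ℝ, IntervalIntegrable K.l volume a b := fun a b => h.cl.intervalIntegrable a b
  have hA : (∫ x in (0:ℝ)..K.w, (K.u x - K.l x)) = (∫ x in (0:ℝ)..K.w, K.u x) - ∫ x in (0:ℝ)..K.w, K.l x :=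
    intervalIntegral.integral_sub (iu _ _) (il _ _)
  -- the lower boundary
  have hL : (∫ x in (0:ℝ)..K.w, K.l x) ≤ (K.w - K.r 0) * yE / 2 := by
    have e1 := intervalIntegral.integral_add_adjacent_intervals (il 0 (K.r 0)) (il (K.r 0) K.w)
    have e2 : (∫ x in (0:ℝ)..(K.r 0), K.l x) = 0 := by
      have e3 : (∫ x in (0:ℝ)..(K.r 0), K.l x) = ∫ x in (0:ℝ)..(K.r 0), (0:ℝ) := by
        refine intervalIntegral.integral_congr fun x hx => ?_
        rw [uIcc_of_le hx1] at hx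
        exact (hbt x hx.1 hx.2).2.1
      rw [e3, intervalIntegral.integral_zero]
    have e4 := A5_chord (fun x => - K.l x) K.w (K.r 0) K.w 0 (-yE) h.cl.neg h.vl.neg hx1 hxW le_rfl
      (by simp only [hlr, neg_zero, le_refl]) (by simp only [hyE, le_refl])
    rw [intervalIntegral.integral_neg] at e4
    rw [← e1, e2]
    linarith
  have hu1 := A5_chord K.u K.w 0 xN (K.u 0) K.h h.cu h.vu le_rfl hN1 hN2 le_rfl hN4
  by_contra hcon
  rw [not_or, not_le, not_le, ← area_eq K h.toOk] at hcon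
  obtain ⟨hc1, hc2⟩ := hcon
  -- the pentagon
  have hP : K.r 0 * yE + K.w * K.h - xN * yE + xN * K.u 0 ≤ 2 * ∫ x in (0:ℝ)..K.w, (K.u x - K.l x) := by
    have e1 := intervalIntegral.integral_add_adjacent_intervals (iu 0 xN) (iu xN K.w)
    have e2 := A5_chord K.u K.w xN K.w K.h yE h.cu h.vu hN1 hN2 le_rfl hN4 hEu
    rw [hA, ← e1]
    linarith
  have hprod : (K.w - K.r 0) * (K.h - K.u 0) < (K.r 0 - xN) * (K.u 0 - yE) := by
    nlinarith
  have hW0 : 0 ≤ K.w - K.r 0 := by linarith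
  have hH0 : 0 ≤ K.h - K.u 0 := by linarith
  have hlow : 0 ≤ (K.w - K.r 0) * (K.h - K.u 0) := mul_nonneg hW0 hH0
  have hsx : xN < K.r 0 := by
    by_contra hx
    rw [not_lt] at hx
    rcases lt_or_ge yE (K.u 0) with hy | hy
    · have := mul_nonneg (sub_nonneg.2 hx) (sub_nonneg.2 hy.le)
      linarith
    · have e1 : (xN - K.r 0) * (yE - K.u 0) ≤ (K.w - K.r 0) * (K.h - K.u 0) :=
        mul_le_mul (by linarith) (by linarith) (sub_nonneg.2 hy) hW0
      linarith
  have hU : K.r 0 * K.h + K.u 0 * K.w ≤ 2 * ∫ x in (0:ℝ)..K.w, (K.u x - K.l x) := by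
    have e1 := intervalIntegral.integral_add_adjacent_intervals (iu 0 xN) (iu xN (K.r 0))
    have e2 := intervalIntegral.integral_add_adjacent_intervals (iu 0 (K.r 0)) (iu (K.r 0) K.w)
    have e3 := A5_chord K.u K.w xN (K.r 0) K.h (K.u 0) h.cu h.vu hN1 hsx.le hxW hN4 hm4
    have e4 := A5_chord K.u K.w (K.r 0) K.w (K.u 0) yE h.cu h.vu hx1 hxW le_rfl hm4 hEu
    rw [hA, ← e2, ← e1]
    linarith
  linarith

end Pool.Agent.Lib.MP_1dedaf_gt.DK
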