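import Pool.Agent.Lib.MP_1dedaf_gt.Mg.G050
import Pool.Agent.Lib.MP_1dedaf_gt.DK.C1

/-!
# TASK TN B5: both pivots

`K` corner-filled, `p, q < 0`, `x1 = r 0 > 0`, `y1 = u 0 > 0`, `(x1, y1)` in the body. Proof of `BX`: `St, Ss > 0` (`ee k x > 0` for `x > 0`). `col_le` for `K`: `D b / Ss ≥ D + gU - gV`. `col_le` for `K.swap` (`K.swap.CF`, `K.swap.col = K.row`, `K.swap.col.b = K.row.b = K.col.a` by `pivot_symm`, `K.swap.col.D = K.col.D` by
`row_D`, `K.swap.Ss = K.St`, `K.swap.mem (K.u 0) (K.r 0)` by `K.iff`): `D a / St ≥ D + swap.gU - swap.gV = D + gV - gU` (`pocket`, `pocket'`). Add and divide by `D > 0`: `a / St + b / Ss ≥ 2`.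
Strict version `BX_lt`, for `r 0 < w`. Let `(w, y')`, `y' := l w` be a point of the body with abscissa `w > x1`. If `y' > y1`: then `u (x1/2) > y1`: the point of the segment from `(0, y1)` to `(w, y')` over `x1/2` has height `y1 + (y' - y1) x1/(2 w) > y1`; use `col_lt` at `x = x1/2`.
If `y' ≤ y1`: a row `y ∈ (0, y1)` has `r y > x1`: if `0 < y' < y1` take `y = y'` (`r y' ≥ w`); if `y' = 0` or `y' = y1` take `y = y1/2`: the midpoint of `(w, 0)` and `(x1, y1)` (resp. of `(w, y1)` and `(x1, 0)`; `(x1, 0)` and `(x1, y1)` are in the body) is in the body and has abscissa `> x1`; use `col_lt` for `K.swap` at this `y`. (`C1` is `pivot_symm`.)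
-/

set_option autoImplicit false

open MeasureTheory Set Filter Topology

namespace Pool.Agent.Lib.MP_1dedaf_gt.DK

private theorem B5_ee_pos (k x : ℝ) (hk : k < 0) (hx : 0 < x) : 0 < ee k x := by
  unfold ee
  refine div_pos_of_neg_of_neg ?_ hk
  rw [sub_neg, Real.exp_lt_one_iff]
  exact mul_neg_of_neg_of_pos hk hx

private theorem B5_swap_mem (K : Bd) (h : K.CF) (hm : K.mem (K.r 0) (K.u 0)) :
    K.swap.mem (K.swap.r 0) (K.swap.u 0) := by
  have h1 := (h.iff (K.r 0) (K.u 0)).1 hm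
  exact h1

private theorem B5_swap_b (K : Bd) (h : K.CF) : K.swap.col.b = K.col.a := (Bd.pivot_symm K h).2

private theorem B5_swap_D (K : Bd) (h : K.CF) : K.swap.col.D = K.col.D := Bd.row_D K h.toOk

private theorem B5_final (a b St Ss D gU gV : ℝ) (hSt : 0 < St) (hSs : 0 < Ss) (hD : 0 < D)
    (h1 : Ss * (D + gU - gV) ≤ D * b) (h2 : St * (D + gV - gU) ≤ D * a) : 2 ≤ a / St + b / Ss := by
  have h3 : (D + gU - gV) / D ≤ b / Ss := by
    rw [div_le_div_iff₀ hD hSs]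
    linarith
  have h4 : (D + gV - gU) / D ≤ a / St := by
    rw [div_le_div_iff₀ hD hSt]
    linarith
  have h5 : (D + gU - gV) / D + (D + gV - gU) / D = 2 := by
    field_simp
    ring
  linarith

private theorem B5_final_lt (a b St Ss D gU gV : ℝ) (hSt : 0 < St) (hSs : 0 < Ss) (hD : 0 < D)
    (h1 : Ss * (D + gU - gV) ≤ D * b) (h2 : St * (D + gV - gU) ≤ D * a)
    (h : Ss * (D + gU - gV) < D * b ∨ St * (D + gV - gU) < D * a) : 2 < a / St + b / Ss := by
  have h3 : (D + gU - gV) / D ≤ b / Ss := by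
    rw [div_le_div_iff₀ hD hSs]
    linarith
  have h4 : (D + gV - gU) / D ≤ a / St := by
    rw [div_le_div_iff₀ hD hSt]
    linarith
  have h5 : (D + gU - gV) / D + (D + gV - gU) / D = 2 := by
    field_simp
    ring
  rcases h with h | h
  · have h6 : (D + gU - gV) / D < b / Ss := by
      rw [div_lt_div_iff₀ hD hSs]
      linarith
    linarith
  · have h6 : (D + gV - gU) / D < a / St := by
      rw [div_lt_div_iff₀ hD hSt]
      linarith
    linarith

theorem BX (K : Bd) (h : K.CF) (hp : K.p < 0) (hq : K.q < 0) (hr : 0 < K.r 0) (hu : 0 < K.u 0) (hm : K.mem (K.r 0) (K.u 0)) :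
    2 ≤ K.col.a / K.St + K.col.b / K.Ss := by
  obtain ⟨-, -, -, -, -, -, -, -, -, -, hReg, -, hsw⟩ := cf_facts K h
  have h1 := col_le K h hp hq hm
  have h2 := col_le K.swap hsw hq hp (B5_swap_mem K h hm)
  rw [B5_swap_b K h, B5_swap_D K h, ← pocket K h hm, pocket' K h hm] at h2
  exact B5_final _ _ _ _ _ _ _ (B5_ee_pos _ _ hp hr) (B5_ee_pos _ _ hq hu) (K.col.D_pos hReg) h1 h2

theorem BX_lt (K : Bd) (h : K.CF) (hp : K.p < 0) (hq : K.q < 0) (hr : 0 < K.r 0) (hu : 0 < K.u 0) (hm : K.mem (K.r 0) (K.u 0))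
    (hw : K.r 0 < K.w) : 2 < K.col.a / K.St + K.col.b / K.Ss := by
  obtain ⟨-, -, -, -, -, -, -, hlpos, -, huh, hReg, -, hsw⟩ := cf_facts K h
  have h1 := col_le K h hp hq hm
  have h2 := col_le K.swap hsw hq hp (B5_swap_mem K h hm)
  rw [B5_swap_b K h, B5_swap_D K h, ← pocket K h hm, pocket' K h hm] at h2
  refine B5_final_lt _ _ _ _ _ _ _ (B5_ee_pos _ _ hp hr) (B5_ee_pos _ _ hq hu) (K.col.D_pos hReg) h1 h2 ?_
  have hwp : 0 < K.w := h.hw
  have hww : K.w ∈ Icc 0 K.w := ⟨hwp.le, le_rfl⟩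
  have hmw : K.mem K.w (K.l K.w) := ⟨hwp.le, le_rfl, le_rfl, h.lu K.w hww⟩
  have hy0 : 0 < K.l K.w := hlpos K.w hw le_rfl
  rcases lt_trichotomy (K.l K.w) (K.u 0) with hy | hy | hy
  · right
    have h3 := ((h.iff K.w (K.l K.w)).1 hmw).2.2.2
    have h4 := col_lt K.swap hsw hq hp (B5_swap_mem K h hm) (K.l K.w) hy0 hy (hw.trans_le h3)
    rw [B5_swap_b K h, B5_swap_D K h, ← pocket K h hm, pocket' K h hm] at h4
    exact h4
  · right
    have h3 := ((h.iff K.w (K.l K.w)).1 hmw).2.2.2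
    rw [hy] at h3
    have h5 : (1 / 2 : ℝ) • K.r 0 + (1 / 2 : ℝ) • K.r (K.u 0) ≤ K.r ((1 / 2 : ℝ) • 0 + (1 / 2 : ℝ) • K.u 0) :=
      h.vr.2 (⟨le_rfl, h.hh.le⟩ : (0 : ℝ) ∈ Icc 0 K.h) (⟨hu.le, huh⟩ : K.u 0 ∈ Icc 0 K.h)
        (by norm_num) (by norm_num) (by norm_num)
    simp only [smul_eq_mul, mul_zero, zero_add] at h5
    have h4 := col_lt K.swap hsw hq hp (B5_swap_mem K h hm) (1 / 2 * K.u 0) (by linarith)
      (by
        show 1 / 2 * K.u 0 < K.u 0
        linarith)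
      (by
        show K.r 0 < K.r (1 / 2 * K.u 0)
        linarith)
    rw [B5_swap_b K h, B5_swap_D K h, ← pocket K h hm, pocket' K h hm] at h4
    exact h4
  · left
    have huw : K.u 0 < K.u K.w := hy.trans_le (h.lu K.w hww)
    have hs0 : 0 < K.r 0 / (2 * K.w) := by positivity
    have hs1 : K.r 0 / (2 * K.w) < 1 := by
      rw [div_lt_one (by positivity)]
      linarith
    have h5 : (1 - K.r 0 / (2 * K.w)) • K.u 0 + (K.r 0 / (2 * K.w)) • K.u K.w ≤
        K.u ((1 - K.r 0 / (2 * K.w)) • 0 + (K.r 0 / (2 * K.w)) • K.w) :=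
      h.vu.2 (⟨le_rfl, hwp.le⟩ : (0 : ℝ) ∈ Icc 0 K.w) hww (by linarith) hs0.le (by ring)
    simp only [smul_eq_mul, mul_zero, zero_add] at h5
    have h6 : K.r 0 / (2 * K.w) * K.w = K.r 0 / 2 := by
      field_simp
    rw [h6] at h5
    refine col_lt K h hp hq hm (K.r 0 / 2) (by linarith) (by linarith) ?_
    have h7 : 0 < K.r 0 / (2 * K.w) * (K.u K.w - K.u 0) := mul_pos hs0 (by linarith)
    nlinarith

end Pool.Agent.Lib.MP_1dedaf_gt.DK
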