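import Pool.Agent.Lib.MP_1dedaf_gt.DK.Goals
import Pool.Agent.Lib.MP_1dedaf_gt.DK.A0
import Pool.Agent.Lib.MP_1dedaf_gt.Mg.G003

/-!
# TASK TN B1: the column formula for `D * b`

`nu x` = integral of `1/density` over the column, `Pl x` = integral of `dl/density` along the lower boundary from `0` to `x`. Proof of `Db_formula`: by definition `D b = (M - D - p D a - p q M D)/q` and `D a = N1/q` (`D ≠ 0`, `N0 ≠ 0`). Put `m x = mu x`. Then
`Yu = (ru - 1 - p q M - p Xu)/q`, so `∫ Yu nu = (1/q) (∫ ru nu - (1 + p q M) D - p ∫ Xu nu)` (`D = ∫ nu`: both are `N 0 / q`); `∫ Pl m = (1/q) (∫ m (1 - 1/rl) - p ∫ m x (∫_0^x 1/rl) dx)`; `ru nu + m (1 - 1/rl) = m` pointwise (`ru nu = (ru/rl - 1)/q = m / rl`), so the sum of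
these two parts is `M`; `N1 / q = ∫ Xu nu + ∫ mr / rl` (`N1_eq`, divide by `q`), and `∫_0^w mr / rl = ∫_0^w m x (∫_0^x 1/rl) dx` (integration by parts: `mr' = - m`, `mr w = 0`). Adding up: `∫ (Yu nu + Pl m) = (1/q)(M - (1 + p q M) D - p N1/q) = D b`. All integrands are continuous.
`Yu_eq`: `Xu x = - q M + ∫_0^x ru` (`Xu_deriv`, `Xu_zero`), insert in `Yu`.
-/

set_option autoImplicit false

open MeasureTheory Set Filter Topology

namespace Pool.Agent.Lib.MP_1dedaf_gt.DK

namespace Dat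

/-- The integral of `1 / density` over the column. -/
noncomputable def nu (K : Dat) (x : ℝ) : ℝ := (1 / K.rl x - 1 / K.ru x) / K.q

/-- The integral of `dy / density` along the lower boundary. -/
noncomputable def Pl (K : Dat) (x : ℝ) : ℝ := (1 - 1 / K.rl x - K.p * ∫ t in (0:ℝ)..x, 1 / K.rl t) / K.q

private theorem B1_inv_cont (K : Dat) (cl : Continuous K.l) : Continuous (fun x => 1 / K.rl x) :=
  continuous_const.div (K.rl_cont cl) fun x => (K.rl_pos x).ne'

private theorem B1_invu_cont (K : Dat) (cu : Continuous K.u) : Continuous (fun x => 1 / K.ru x) :=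
  continuous_const.div (K.ru_cont cu) fun x => (K.ru_pos x).ne'

private theorem B1_A_deriv (K : Dat) (cl : Continuous K.l) (x : ℝ) :
    HasDerivAt (fun x => ∫ t in (0:ℝ)..x, 1 / K.rl t) (1 / K.rl x) x :=
  ((B1_inv_cont K cl).integral_hasStrictDerivAt 0 x).hasDerivAt

private theorem B1_A_cont (K : Dat) (cl : Continuous K.l) :
    Continuous (fun x => ∫ t in (0:ℝ)..x, 1 / K.rl t) :=
  continuous_iff_continuousAt.mpr fun x => (B1_A_deriv K cl x).continuousAt

theorem nu_cont (K : Dat) (cl : Continuous K.l) (cu : Continuous K.u) : Continuous K.nu := by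
  unfold nu
  exact ((B1_inv_cont K cl).sub (B1_invu_cont K cu)).div_const _

theorem Pl_cont (K : Dat) (cl : Continuous K.l) : Continuous K.Pl := by
  unfold Pl
  exact ((continuous_const.sub (B1_inv_cont K cl)).sub (continuous_const.mul (B1_A_cont K cl))).div_const _

theorem Yu_eq (K : Dat) (h : K.Reg) (x : ℝ) : K.Yu x = (K.ru x - 1 - K.p * ∫ t in (0:ℝ)..x, K.ru t) / K.q := by
  have h1 := intervalIntegral.integral_eq_sub_of_hasDerivAt (a := 0) (b := x)
    (fun t _ => K.Xu_deriv h.hq h.cl h.cu t) ((K.ru_cont h.cu).intervalIntegrable _ _)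
  rw [K.Xu_zero] at h1
  unfold Yu
  rw [h1]
  congr 1
  ring

theorem D_nu (K : Dat) (h : K.Reg) : K.D = ∫ x in (0:ℝ)..K.w, K.nu x := by
  rw [A1_D_eq K h.hq]
  refine intervalIntegral.integral_congr fun x _ => ?_
  have e1 := (K.rl_pos x).ne'
  have e2 := (K.ru_pos x).ne'
  have e3 := h.hq
  simp only [nu, mu]
  field_simp

private theorem B1_parts (K : Dat) (h : K.Reg) :
    (∫ x in (0:ℝ)..K.w, K.mr x / K.rl x) =
      ∫ x in (0:ℝ)..K.w, K.mu x * ∫ t in (0:ℝ)..x, 1 / K.rl t := by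
  have hA := B1_A_cont K h.cl
  have hi := B1_inv_cont K h.cl
  have hm := K.mr_cont h.cl h.cu
  have hu := K.mu_cont h.cl h.cu
  have hd : ∀ x : ℝ, HasDerivAt (fun x => K.mr x * ∫ t in (0:ℝ)..x, 1 / K.rl t)
      ((- K.mu x) * (∫ t in (0:ℝ)..x, 1 / K.rl t) + K.mr x * (1 / K.rl x)) x :=
    fun x => (K.mr_deriv h.cl h.cu x).mul (B1_A_deriv K h.cl x)
  have hc1 : Continuous (fun x => K.mu x * ∫ t in (0:ℝ)..x, 1 / K.rl t) := hu.mul hA
  have hc2 : Continuous (fun x => K.mr x * (1 / K.rl x)) := hm.mul hi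
  have hc : Continuous (fun x => (- K.mu x) * (∫ t in (0:ℝ)..x, 1 / K.rl t) + K.mr x * (1 / K.rl x)) :=
    (hu.neg.mul hA).add hc2
  have h1 := intervalIntegral.integral_eq_sub_of_hasDerivAt (a := 0) (b := K.w)
    (fun x _ => hd x) (hc.intervalIntegrable _ _)
  have h2 : (∫ x in (0:ℝ)..K.w, ((- K.mu x) * (∫ t in (0:ℝ)..x, 1 / K.rl t) + K.mr x * (1 / K.rl x))) =
      (∫ x in (0:ℝ)..K.w, K.mr x * (1 / K.rl x)) -
        ∫ x in (0:ℝ)..K.w, K.mu x * ∫ t in (0:ℝ)..x, 1 / K.rl t := by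
    rw [← intervalIntegral.integral_sub (hc2.intervalIntegrable _ _) (hc1.intervalIntegrable _ _)]
    refine intervalIntegral.integral_congr fun x _ => ?_
    ring
  rw [h2, K.mr_w, intervalIntegral.integral_same, mul_zero, zero_mul, sub_zero] at h1
  have h3 : (∫ x in (0:ℝ)..K.w, K.mr x / K.rl x) = ∫ x in (0:ℝ)..K.w, K.mr x * (1 / K.rl x) := by
    refine intervalIntegral.integral_congr fun x _ => ?_
    ring
  rw [h3]
  linarith

theorem Db_formula (K : Dat) (h : K.Reg) : K.D * K.b = ∫ x in (0:ℝ)..K.w, (K.Yu x * K.nu x + K.Pl x * K.mu x) := by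
  have hq := h.hq
  have hD : K.D ≠ 0 := (D_pos K h).ne'
  have hN : K.N 0 ≠ 0 := N0_ne K h
  have hA := B1_A_cont K h.cl
  have hXu := K.Xu_cont h.cl h.cu
  have hnu := K.nu_cont h.cl h.cu
  have hmu := K.mu_cont h.cl h.cu
  have ha : K.a * K.D = K.N 1 / K.q := by
    unfold a D
    field_simp
  have hL : K.D * K.b = (K.M - K.D - K.p * (K.N 1 / K.q) - K.p * K.q * K.M * K.D) / K.q := by
    rw [← ha]
    unfold b
    field_simp
  have hN1 : K.N 1 / K.q = (∫ x in (0:ℝ)..K.w, K.Xu x * K.nu x) +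
      ∫ x in (0:ℝ)..K.w, K.mu x * ∫ t in (0:ℝ)..x, 1 / K.rl t := by
    rw [N1_eq K h.cl h.cu, ← B1_parts K h]
    have e : (∫ x in (0:ℝ)..K.w, K.Xu x * (1 / K.rl x - 1 / K.ru x)) =
        K.q * ∫ x in (0:ℝ)..K.w, K.Xu x * K.nu x := by
      rw [← intervalIntegral.integral_const_mul]
      refine intervalIntegral.integral_congr fun x _ => ?_
      simp only [nu]
      field_simp
    rw [e, ← mul_add]
    field_simp
  have hc1 : Continuous (fun x => K.Xu x * K.nu x) := hXu.mul hnu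
  have hc2 : Continuous (fun x => K.mu x * ∫ t in (0:ℝ)..x, 1 / K.rl t) := hmu.mul hA
  have hp : ∀ x, K.Yu x * K.nu x + K.Pl x * K.mu x =
      (K.mu x - (1 + K.p * K.q * K.M) * K.nu x) / K.q -
        K.p / K.q * (K.Xu x * K.nu x + K.mu x * ∫ t in (0:ℝ)..x, 1 / K.rl t) := by
    intro x
    have e1 := (K.rl_pos x).ne'
    have e2 := (K.ru_pos x).ne'
    have e3 : K.ru x * K.nu x = K.mu x / K.rl x := by
      simp only [nu, mu]
      field_simp
    have e4 : K.Yu x * K.nu x = (K.mu x / K.rl x - (1 + K.p * K.q * K.M) * K.nu x -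
        K.p * (K.Xu x * K.nu x)) / K.q := by
      rw [← e3]
      unfold Yu
      ring
    rw [e4]
    unfold Pl
    ring
  have hC : ∀ C : ℝ, (∫ x in (0:ℝ)..K.w, ((K.mu x - C * K.nu x) / K.q -
        K.p / K.q * (K.Xu x * K.nu x + K.mu x * ∫ t in (0:ℝ)..x, 1 / K.rl t))) =
      ((∫ x in (0:ℝ)..K.w, K.mu x) - C * ∫ x in (0:ℝ)..K.w, K.nu x) / K.q -
        K.p / K.q * ((∫ x in (0:ℝ)..K.w, K.Xu x * K.nu x) +
          ∫ x in (0:ℝ)..K.w, K.mu x * ∫ t in (0:ℝ)..x, 1 / K.rl t) := by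
    intro C
    have hk : Continuous (fun x => C * K.nu x) := continuous_const.mul hnu
    have hk1 : Continuous (fun x => (K.mu x - C * K.nu x) / K.q) := (hmu.sub hk).div_const _
    have hk2 : Continuous (fun x => K.p / K.q *
        (K.Xu x * K.nu x + K.mu x * ∫ t in (0:ℝ)..x, 1 / K.rl t)) :=
      continuous_const.mul (hc1.add hc2)
    rw [intervalIntegral.integral_sub (hk1.intervalIntegrable _ _) (hk2.intervalIntegrable _ _),
      intervalIntegral.integral_const_mul, intervalIntegral.integral_div,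
      intervalIntegral.integral_sub (hmu.intervalIntegrable _ _) (hk.intervalIntegrable _ _),
      intervalIntegral.integral_const_mul,
      intervalIntegral.integral_add (hc1.intervalIntegrable _ _) (hc2.intervalIntegrable _ _)]
  have hI : (∫ x in (0:ℝ)..K.w, (K.Yu x * K.nu x + K.Pl x * K.mu x)) =
      (K.M - (1 + K.p * K.q * K.M) * K.D) / K.q - K.p / K.q * (K.N 1 / K.q) := by
    rw [hN1, K.D_nu h]
    have hM : K.M = ∫ x in (0:ℝ)..K.w, K.mu x := rfl
    have h1 := hC (1 + K.p * K.q * K.M)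
    rw [← hM] at h1
    rw [← h1]
    refine intervalIntegral.integral_congr fun x _ => ?_
    exact hp x
  rw [hL, hI]
  ring

end Dat

end Pool.Agent.Lib.MP_1dedaf_gt.DK
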