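import Pool.Agent.Lib.MP_1dedaf_gt.DK.Goals
import Pool.Agent.Lib.MP_1dedaf_gt.DK.A0
import Pool.Agent.Lib.MP_1dedaf_gt.Mg.G003

/-!
# TASK TN V1: the reference point functional as a loop integral

`R X := 1 + p q M + q η + p X`, `gg ρ R := 2/ρ - R/ρ²`. Proof of `Br_eq`: `Br = J - D (a - ξ)(b - η)`, `J = (-2 xb + M a + (p/q) V)/q`, `V = N2 - a N1`, `N1 = a N0` (`N0 ≠ 0`), `D = N0/q`, `b = (M/D - 1 - p a - p q M)/q` (`D ≠ 0`).
Multiply by `q²`: `q² Br = - 2 q xb + q ξ M + p N2 + (R0 - p ξ) N1 - ξ R0 N0` with `R0 = 1 + p q M + q η` (`field_simp; ring` after `N1 = a N0`). And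
`p X² + (R0 - p ξ) X - ξ R0 = - (ξ - X) R X`, so `p N2 + (R0 - pξ) N1 - ξ R0 N0 = - ∫ ((ξ - Xl) R Xl / rl - (ξ - Xu) R Xu / ru)` (linearity, all integrands are continuous), and `- 2 q xb = - 2 q ∫ mr = ∫ (2 (ξ - Xl) - 2 (ξ - Xu))` because
`Xl - Xu = q mr` (`Dat.Xu`) and `xb = ∫ mr` (`xb_eq`). Adding up gives the claim, as `(ξ - X)(2 - R/ρ) = (ξ - X) * gg ρ R * ρ`.
The pointwise facts: `gg_le`: `1/R - 2/ρ + R/ρ² = (ρ - R)²/(R ρ²)`. `gg_mono`: if `R - ρ = q (η - Y)`, `R - ρ' = q (η - Y')` then `gg ρ' R - gg ρ R = q² (Y' - Y) ((η - Y')/ρ' + (η - Y)/ρ) / (ρ ρ')`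
(write `ρ = R - q (η - Y)`, `ρ' = R - q (η - Y')`, `field_simp; ring`).
-/

set_option autoImplicit false

open MeasureTheory Set Filter Topology

namespace Pool.Agent.Lib.MP_1dedaf_gt.DK

/-- The column integrand of the reference point functional. -/
noncomputable def gg (ρ R : ℝ) : ℝ := 2 / ρ - R / ρ ^ 2

/-- The density at height `η` over `X`. -/
noncomputable def Dat.RR (K : Dat) (η X : ℝ) : ℝ := 1 + K.p * K.q * K.M + K.q * η + K.p * X

theorem gg_le (ρ R : ℝ) (hρ : 0 < ρ) (hR : 0 < R) : gg ρ R ≤ 1 / R := by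
  have h : 1 / R - gg ρ R = (ρ - R) ^ 2 / (R * ρ ^ 2) := by
    unfold gg
    field_simp
    ring
  have h2 : 0 ≤ (ρ - R) ^ 2 / (R * ρ ^ 2) := by positivity
  linarith

private theorem V1_diff (q η R ρ ρ' Y Y' : ℝ) (hρ : 0 < ρ) (hρ' : 0 < ρ') (h : R - ρ = q * (η - Y))
    (h' : R - ρ' = q * (η - Y')) :
    gg ρ' R - gg ρ R = q ^ 2 * (Y' - Y) * ((η - Y') / ρ' + (η - Y) / ρ) / (ρ * ρ') := by
  have e1 : R = ρ + q * (η - Y) := by linarith
  have e2 : ρ' = ρ + q * (Y' - Y) := by linarith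
  have e3 : gg ρ' R = 1 / ρ' - q * (η - Y') / ρ' ^ 2 := by
    have e4 : R = ρ' + q * (η - Y') := by linarith
    unfold gg
    rw [e4]
    field_simp
    ring
  have e5 : gg ρ R = 1 / ρ - q * (η - Y) / ρ ^ 2 := by
    unfold gg
    rw [e1]
    field_simp
    ring
  rw [e3, e5]
  have e6 : q * (Y' - Y) = ρ' - ρ := by linarith
  have e7 : q ^ 2 * (Y' - Y) * ((η - Y') / ρ' + (η - Y) / ρ) / (ρ * ρ') =
      (ρ' - ρ) * (q * (η - Y') / ρ' + q * (η - Y) / ρ) / (ρ * ρ') := by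
    rw [← e6]
    ring
  rw [e7]
  have e8 : ρ' - ρ = q * (η - Y) - q * (η - Y') := by linarith
  have hA : ∀ A B : ℝ, ρ' - ρ = A - B →
      1 / ρ' - B / ρ' ^ 2 - (1 / ρ - A / ρ ^ 2) = (ρ' - ρ) * (B / ρ' + A / ρ) / (ρ * ρ') := by
    intro A B hAB
    have hA1 : A = ρ' - ρ + B := by linarith
    rw [hA1]
    field_simp
    ring
  exact hA _ _ e8

theorem gg_mono_lo (q η R ρ ρ' Y Y' : ℝ) (hρ : 0 < ρ) (hρ' : 0 < ρ') (h : R - ρ = q * (η - Y)) (h' : R - ρ' = q * (η - Y'))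
    (h1 : Y ≤ Y') (h2 : Y' ≤ η) : gg ρ R ≤ gg ρ' R := by
  have e := V1_diff q η R ρ ρ' Y Y' hρ hρ' h h'
  have h3 : 0 ≤ (η - Y') / ρ' := div_nonneg (by linarith) hρ'.le
  have h4 : 0 ≤ (η - Y) / ρ := div_nonneg (by linarith) hρ.le
  have h5 : 0 ≤ q ^ 2 * (Y' - Y) * ((η - Y') / ρ' + (η - Y) / ρ) / (ρ * ρ') :=
    div_nonneg (mul_nonneg (mul_nonneg (sq_nonneg q) (by linarith)) (by linarith)) (mul_pos hρ hρ').le
  linarith

theorem gg_mono_up (q η R ρ ρ' Y Y' : ℝ) (hρ : 0 < ρ) (hρ' : 0 < ρ') (h : R - ρ = q * (η - Y)) (h' : R - ρ' = q * (η - Y'))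
    (h1 : Y ≤ Y') (h2 : η ≤ Y) : gg ρ' R ≤ gg ρ R := by
  have e := V1_diff q η R ρ ρ' Y Y' hρ hρ' h h'
  have h3 : 0 ≤ (Y' - η) / ρ' := div_nonneg (by linarith) hρ'.le
  have h4 : 0 ≤ (Y - η) / ρ := div_nonneg (by linarith) hρ.le
  have h5 : 0 ≤ q ^ 2 * (Y' - Y) * ((Y' - η) / ρ' + (Y - η) / ρ) / (ρ * ρ') :=
    div_nonneg (mul_nonneg (mul_nonneg (sq_nonneg q) (by linarith)) (by linarith)) (mul_pos hρ hρ').le
  have h6 : q ^ 2 * (Y' - Y) * ((Y' - η) / ρ' + (Y - η) / ρ) / (ρ * ρ') =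
      -(q ^ 2 * (Y' - Y) * ((η - Y') / ρ' + (η - Y) / ρ) / (ρ * ρ')) := by ring
  linarith

theorem RR_rl (K : Dat) (hq : K.q ≠ 0) (η x : ℝ) : K.RR η (K.Xl x) - K.rl x = K.q * (η - K.Yl x) := by
  unfold Dat.RR Dat.Yl
  field_simp
  ring

theorem RR_ru (K : Dat) (hq : K.q ≠ 0) (η x : ℝ) : K.RR η (K.Xu x) - K.ru x = K.q * (η - K.Yu x) := by
  unfold Dat.RR Dat.Yu
  field_simp
  ring

private theorem V1_int (K : Dat) (h : K.Reg) (ξ η : ℝ) :
    (∫ x in (0:ℝ)..K.w, (ξ - K.Xl x) * gg (K.rl x) (K.RR η (K.Xl x)) * K.rl x)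
      - (∫ x in (0:ℝ)..K.w, (ξ - K.Xu x) * gg (K.ru x) (K.RR η (K.Xu x)) * K.ru x) =
    -2 * K.q * K.xb + K.p * K.N 2 + ((1 + K.p * K.q * K.M + K.q * η) - K.p * ξ) * K.N 1
      - ξ * (1 + K.p * K.q * K.M + K.q * η) * K.N 0 := by
  have hXl := K.Xl_cont h.cl
  have hXu := K.Xu_cont h.cl h.cu
  have hm := K.mr_cont h.cl h.cu
  have hrl := K.rl_cont h.cl
  have hru := K.ru_cont h.cu
  have nl : ∀ x, K.rl x ≠ 0 := fun x => (K.rl_pos x).ne'
  have nu : ∀ x, K.ru x ≠ 0 := fun x => (K.ru_pos x).ne'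
  have cN : ∀ i : ℕ, Continuous fun x => K.Xl x ^ i / K.rl x - K.Xu x ^ i / K.ru x := fun i =>
    ((hXl.pow i).div hrl nl).sub ((hXu.pow i).div hru nu)
  have cA : Continuous fun x => (ξ - K.Xl x) * gg (K.rl x) (K.RR η (K.Xl x)) * K.rl x := by
    have e : (fun x => (ξ - K.Xl x) * gg (K.rl x) (K.RR η (K.Xl x)) * K.rl x) =
        fun x => (ξ - K.Xl x) * (2 - (1 + K.p * K.q * K.M + K.q * η + K.p * K.Xl x) / K.rl x) := by
      funext x
      have := nl x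
      unfold gg Dat.RR
      field_simp
    rw [e]
    exact (continuous_const.sub hXl).mul (continuous_const.sub
      ((continuous_const.add (continuous_const.mul hXl)).div hrl nl))
  have cB : Continuous fun x => (ξ - K.Xu x) * gg (K.ru x) (K.RR η (K.Xu x)) * K.ru x := by
    have e : (fun x => (ξ - K.Xu x) * gg (K.ru x) (K.RR η (K.Xu x)) * K.ru x) =
        fun x => (ξ - K.Xu x) * (2 - (1 + K.p * K.q * K.M + K.q * η + K.p * K.Xu x) / K.ru x) := by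
      funext x
      have := nu x
      unfold gg Dat.RR
      field_simp
    rw [e]
    exact (continuous_const.sub hXu).mul (continuous_const.sub
      ((continuous_const.add (continuous_const.mul hXu)).div hru nu))
  rw [← intervalIntegral.integral_sub (cA.intervalIntegrable _ _) (cB.intervalIntegrable _ _)]
  have e1 : ∀ x, (ξ - K.Xl x) * gg (K.rl x) (K.RR η (K.Xl x)) * K.rl x -
      (ξ - K.Xu x) * gg (K.ru x) (K.RR η (K.Xu x)) * K.ru x =
      (-2 * K.q) * K.mr x + K.p * (K.Xl x ^ 2 / K.rl x - K.Xu x ^ 2 / K.ru x) +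
        ((1 + K.p * K.q * K.M + K.q * η) - K.p * ξ) * (K.Xl x ^ 1 / K.rl x - K.Xu x ^ 1 / K.ru x) +
        (-(ξ * (1 + K.p * K.q * K.M + K.q * η))) * (K.Xl x ^ 0 / K.rl x - K.Xu x ^ 0 / K.ru x) := by
    intro x
    have h1 := nl x
    have h2 := nu x
    have h3 : K.q * K.mr x = K.Xl x - K.Xu x := by
      unfold Dat.Xu
      ring
    have h4 : (-2 * K.q) * K.mr x = -2 * (K.Xl x - K.Xu x) := by
      rw [← h3]
      ring
    rw [h4]
    have h5 : (ξ - K.Xl x) * gg (K.rl x) (K.RR η (K.Xl x)) * K.rl x =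
        (ξ - K.Xl x) * (2 - (1 + K.p * K.q * K.M + K.q * η + K.p * K.Xl x) / K.rl x) := by
      unfold gg Dat.RR
      field_simp
    have h6 : (ξ - K.Xu x) * gg (K.ru x) (K.RR η (K.Xu x)) * K.ru x =
        (ξ - K.Xu x) * (2 - (1 + K.p * K.q * K.M + K.q * η + K.p * K.Xu x) / K.ru x) := by
      unfold gg Dat.RR
      field_simp
    rw [h5, h6]
    ring
  rw [intervalIntegral.integral_congr fun x _ => e1 x]
  have c1 : Continuous fun x => (-2 * K.q) * K.mr x := continuous_const.mul hm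
  have c2 : Continuous fun x => K.p * (K.Xl x ^ 2 / K.rl x - K.Xu x ^ 2 / K.ru x) := continuous_const.mul (cN 2)
  have c3 : Continuous fun x => ((1 + K.p * K.q * K.M + K.q * η) - K.p * ξ) *
    (K.Xl x ^ 1 / K.rl x - K.Xu x ^ 1 / K.ru x) := continuous_const.mul (cN 1)
  have c4 : Continuous fun x => (-(ξ * (1 + K.p * K.q * K.M + K.q * η))) *
    (K.Xl x ^ 0 / K.rl x - K.Xu x ^ 0 / K.ru x) := continuous_const.mul (cN 0)
  have c12 : Continuous fun x => (-2 * K.q) * K.mr x + K.p * (K.Xl x ^ 2 / K.rl x - K.Xu x ^ 2 / K.ru x) :=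
    c1.add c2
  have c123 : Continuous fun x => (-2 * K.q) * K.mr x + K.p * (K.Xl x ^ 2 / K.rl x - K.Xu x ^ 2 / K.ru x) +
    ((1 + K.p * K.q * K.M + K.q * η) - K.p * ξ) * (K.Xl x ^ 1 / K.rl x - K.Xu x ^ 1 / K.ru x) := c12.add c3
  rw [intervalIntegral.integral_add (c123.intervalIntegrable _ _) (c4.intervalIntegrable _ _),
    intervalIntegral.integral_add (c12.intervalIntegrable _ _) (c3.intervalIntegrable _ _),
    intervalIntegral.integral_add (c1.intervalIntegrable _ _) (c2.intervalIntegrable _ _),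
    intervalIntegral.integral_const_mul, intervalIntegral.integral_const_mul,
    intervalIntegral.integral_const_mul, intervalIntegral.integral_const_mul, K.xb_eq h.cl h.cu]
  unfold Dat.N
  ring

theorem Br_eq (K : Dat) (h : K.Reg) (ξ η : ℝ) :
    K.q ^ 2 * K.Br ξ η = K.q * ξ * K.M + (∫ x in (0:ℝ)..K.w, (ξ - K.Xl x) * gg (K.rl x) (K.RR η (K.Xl x)) * K.rl x)
      - ∫ x in (0:ℝ)..K.w, (ξ - K.Xu x) * gg (K.ru x) (K.RR η (K.Xu x)) * K.ru x := by
  have h1 := V1_int K h ξ η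
  rw [add_sub_assoc, h1]
  have hq := h.hq
  have hN := K.N0_ne h
  have ha : K.N 1 = K.a * K.N 0 := by
    unfold Dat.a
    field_simp
  unfold Dat.Br Dat.J Dat.b Dat.V Dat.D
  rw [ha]
  field_simp
  ring

end Pool.Agent.Lib.MP_1dedaf_gt.DK
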